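import Pool.Agent.CPT.StmtsD

/-!
# Squad CPT, row BES (helper39)
-/

set_option autoImplicit false

namespace Pool.Agent.CPT.H39

open MvPolynomial Pool.Agent.CPT

theorem bes (ess : EssStmt) (brk : BrkStmt) (esd : EsdStmt) : BesStmt := by
  intro E _ _ n s F hF
  obtain ⟨G, hG, hc⟩ := hF
  obtain ⟨A, H, hH⟩ := ess (EE E) n s (gen1 G) hc
  have h1 := brk E n (2 * s + 1) G A H hH
  rw [hG] at h1
  exact esd E n (2 * s + 1) F h1

end Pool.Agent.CPT.H39
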