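import Pool.Agent.CPT.StmtsD

/-!
# Squad CPT, row CAL (helper39)
-/

set_option autoImplicit false

namespace Pool.Agent.CPT.H39

open MvPolynomial Pool.Agent.CPT Pool.Agent.BSH

theorem cal (grd : GrdStmt) (bsl : BslStmt) (bau : BauStmt) : CalStmt := by
  intro E _ _ n s θ F hθ hF hl
  obtain ⟨c, hc, k, ρ, hρ, hne, hind⟩ := grd E n θ F hθ hF
  refine ⟨c, ?_, hc⟩
  refine bau E k s _ (aeval ρ F) hne (bsl E n k s F (aeval ρ) hl ?_) hind
  intro i
  rw [aeval_X]
  unfold sp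
  rcases hρ i with ⟨j, hj⟩ | ⟨e, he⟩
  · rw [hj]
    exact Submodule.subset_span (Or.inl (Or.inr ⟨j, rfl⟩))
  · rw [he]
    have h1 : (C e : MvPolynomial (Fin k) E) = e • 1 := by
      rw [← MvPolynomial.C_1, MvPolynomial.smul_eq_C_mul, ← MvPolynomial.C_mul, mul_one]
    rw [h1]
    exact Submodule.smul_mem _ _ (Submodule.subset_span (Or.inl (Or.inl rfl)))

end Pool.Agent.CPT.H39
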